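import Pool.Agent.Q91.PT.Stm

set_option autoImplicit false

/-!
# Project PT (helper91): positions in concatenated words, the sites of a word after a surgery
-/

namespace Pool.Agent.Q68.PT

open Finset Pool.Agent.H976R2 Pool.Agent.H976R2.Lip Pool.Agent.Q91.PT

lemma PP_zero (w : List Dir) : PP w 0 = 0 := by
  unfold PP
  simp

lemma PP_append_left (a b : List Dir) {i : ℕ} (hi : i ≤ a.length) : PP (a ++ b) i = PP a i := by
  unfold PP
  rw [List.take_append_of_le_length hi]

lemma PP_append_right (a b : List Dir) (i : ℕ) :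
    PP (a ++ b) (a.length + i) = PP a a.length + PP b i := by
  unfold PP
  rw [List.take_length_add_append, List.take_length, wX_append, wY_append]
  rfl

lemma PP_take (w : List Dir) {s i : ℕ} (hi : i ≤ s) : PP (w.take s) i = PP w i := by
  unfold PP
  rw [List.take_take, min_eq_left hi]

lemma PP_drop (w : List Dir) {t : ℕ} (i : ℕ) (ht : t ≤ w.length) :
    PP w (t + i) = PP w t + PP (w.drop t) i := by
  have h1 : (w.take t).length = t := by rw [List.length_take, min_eq_left ht]
  have h2 := PP_append_right (w.take t) (w.drop t) i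
  rw [List.take_append_drop, h1, PP_take w le_rfl] at h2
  exact h2

lemma saw_of_inj (w : List Dir)
    (h : ∀ i j, i < j → j ≤ w.length → PP w i = PP w j → False) : Saw w := by
  intro a b c habc hb hcon
  have hbl : 0 < b.length := List.length_pos_of_ne_nil hb
  have hlen : w.length = a.length + b.length + c.length := by
    rw [habc, List.length_append, List.length_append]
  refine h a.length (a.length + b.length) (by omega) (by omega) ?_
  rw [habc, List.append_assoc, PP_append_right, PP_append_left a _ le_rfl,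
    PP_append_left b c le_rfl]
  have h1 : PP b b.length = 0 := by
    unfold PP
    rw [List.take_length, hcon.1, hcon.2]
    rfl
  rw [h1, add_zero]

/-- the data of a surgery -/
lemma surg (hga : S_sga) {r L m : ℕ} {Q : List Dir} {fl : ℤ × ℤ → ℤ × ℤ → List Dir} {w : List Dir}
    {j : ℕ} (hr : 1 ≤ r) (hF : Fill r L Q fl) (hw : Saw w) (hj : j ∈ FS r m w) :
    (fw r fl w j).length ≤ L ∧
    PP (fw r fl w j) (fw r fl w j).length = PP w (lv r w j) - PP w (fv r w j) ∧
    (∀ i ≤ (fw r fl w j).length, inB r (PP w j) (PP w (fv r w j) + PP (fw r fl w j) i)) ∧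
    Saw (fw r fl w j) ∧ 1 ≤ occ Q (fw r fl w j) := by
  obtain ⟨-, -, -, -, -, -, -, hx, hy, hxy⟩ := hga r m w j hr hw hj
  have hne : PP w (fv r w j) - PP w j ≠ PP w (lv r w j) - PP w j := fun h => hxy h
  refine ⟨hF.len _ _ hx hy hne, ?_, ?_, hF.saw _ _ hx hy hne, hF.pat _ _ hx hy hne⟩
  · have h1 := hF.fin _ _ hx hy hne
    unfold fw
    rw [h1]
    abel
  · intro i hi
    have h1 := hF.box _ _ hx hy hne i hi
    unfold inB at h1 ⊢
    unfold fw
    simp only [Prod.fst_sub, Prod.snd_sub, Prod.fst_add, Prod.snd_add, Prod.fst_zero,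
      Prod.snd_zero, sub_zero] at h1 ⊢
    constructor
    · refine le_trans (le_of_eq ?_) h1.1
      congr 1
      ring
    · refine le_trans (le_of_eq ?_) h1.2
      congr 1
      ring

/-- the length of the new word -/
lemma len_sg {r : ℕ} {fl : ℤ × ℤ → ℤ × ℤ → List Dir} {w : List Dir} {j : ℕ}
    (h1 : fv r w j ≤ w.length) (h2 : lv r w j ≤ w.length) :
    (sg r fl w j).length + lv r w j = fv r w j + (fw r fl w j).length + w.length := by
  unfold sg
  rw [List.length_append, List.length_append, List.length_take, List.length_drop, min_eq_left h1]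
  omega

lemma PP_sg_left {r : ℕ} {fl : ℤ × ℤ → ℤ × ℤ → List Dir} {w : List Dir} {j : ℕ}
    (h1 : fv r w j ≤ w.length) {i : ℕ} (hi : i ≤ fv r w j) : PP (sg r fl w j) i = PP w i := by
  have hl : (w.take (fv r w j)).length = fv r w j := by rw [List.length_take, min_eq_left h1]
  unfold sg
  rw [List.append_assoc, PP_append_left _ _ (by rw [hl]; exact hi), PP_take w hi]

lemma PP_sg_mid {r : ℕ} {fl : ℤ × ℤ → ℤ × ℤ → List Dir} {w : List Dir} {j : ℕ}
    (h1 : fv r w j ≤ w.length) {i : ℕ} (hi : i ≤ (fw r fl w j).length) :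
    PP (sg r fl w j) (fv r w j + i) = PP w (fv r w j) + PP (fw r fl w j) i := by
  have hl : (w.take (fv r w j)).length = fv r w j := by rw [List.length_take, min_eq_left h1]
  unfold sg
  rw [List.append_assoc]
  have h2 := PP_append_right (w.take (fv r w j)) (fw r fl w j ++ w.drop (lv r w j)) i
  rw [hl] at h2
  rw [h2, PP_take w le_rfl, PP_append_left _ _ hi]

lemma PP_sg_right {r : ℕ} {fl : ℤ × ℤ → ℤ × ℤ → List Dir} {w : List Dir} {j : ℕ}
    (h1 : fv r w j ≤ w.length) (h2 : lv r w j ≤ w.length)
    (h3 : PP (fw r fl w j) (fw r fl w j).length = PP w (lv r w j) - PP w (fv r w j)) (i : ℕ) :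
    PP (sg r fl w j) (fv r w j + (fw r fl w j).length + i) = PP w (lv r w j + i) := by
  have hl : (w.take (fv r w j)).length = fv r w j := by rw [List.length_take, min_eq_left h1]
  have hl2 : (w.take (fv r w j) ++ fw r fl w j).length = fv r w j + (fw r fl w j).length := by
    rw [List.length_append, hl]
  have h4 := PP_append_right (w.take (fv r w j) ++ fw r fl w j) (w.drop (lv r w j)) i
  rw [hl2] at h4
  have h5 := PP_append_right (w.take (fv r w j)) (fw r fl w j) (fw r fl w j).length
  rw [hl, PP_take w le_rfl, h3] at h5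
  unfold sg
  rw [h4, h5, PP_drop w i h2]
  abel

end Pool.Agent.Q68.PT
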