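import Pool.Agent.Q68.PT.Base

set_option autoImplicit false

/-!
# Project PT (helper91), job DBL: double counting, `h` surgeries
-/

namespace Pool.Agent.Q68.PT.DBL

open Finset Pool.Agent.H976R2 Pool.Agent.H976R2.Lip Pool.Agent.Q91.PT
open scoped Classical

lemma mem_SWle {N : ℕ} {w : List Dir} : w ∈ SWle N ↔ w.length ≤ N ∧ Saw w := by
  unfold SWle
  rw [mem_biUnion]
  constructor
  · rintro ⟨k, hk, hw⟩
    rw [mem_range] at hk
    rw [mem_SW] at hw
    exact ⟨by omega, hw.2⟩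
  · rintro ⟨h1, h2⟩
    exact ⟨w.length, by rw [mem_range]; omega, mem_SW.2 ⟨rfl, h2⟩⟩

lemma lt_of_mem_FS {r m : ℕ} {w : List Dir} {j : ℕ} (h : j ∈ FS r m w) : j < w.length := by
  unfold FS at h
  rw [mem_filter, mem_range] at h
  exact h.1

/-- the words after `i` surgeries -/
noncomputable def V (r L m : ℕ) (Q : List Dir) (n : ℕ) (o f : ℝ) (i : ℕ) : Finset (List Dir) :=
  (SWle (n + L * i)).filter (fun w => (occ Q w : ℝ) ≤ o + ((L + Q.length : ℕ) : ℝ) * i ∧
    f ≤ ((FS r m w).card : ℝ) + ((4 * m + 1 + (4 * r + 1) ^ 2 : ℕ) : ℝ) * i)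

lemma mem_V {r L m : ℕ} {Q : List Dir} {n : ℕ} {o f : ℝ} {i : ℕ} {w : List Dir} :
    w ∈ V r L m Q n o f i ↔ (w.length ≤ n + L * i ∧ Saw w) ∧
      (occ Q w : ℝ) ≤ o + ((L + Q.length : ℕ) : ℝ) * i ∧
      f ≤ ((FS r m w).card : ℝ) + ((4 * m + 1 + (4 * r + 1) ^ 2 : ℕ) : ℝ) * i := by
  unfold V
  rw [mem_filter, mem_SWle]

theorem t (hga : S_sga) (hgb : S_sgb) (hgc : S_sgc) (hgd : S_sgd) (hge : S_sge) : S_dbl := by
  intro r L m Q fl hr hQ hF
  obtain ⟨D0, hD0⟩ := hge r L m Q fl hr hQ hF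
  refine ⟨(D0 : ℝ) + 1, by linarith [Nat.cast_nonneg (α := ℝ) D0], ?_⟩
  intro n h o f ho hf hch
  obtain ⟨c, hc⟩ : ∃ c : ℝ, c = ((4 * m + 1 + (4 * r + 1) ^ 2 : ℕ) : ℝ) := ⟨_, rfl⟩
  obtain ⟨l, hl⟩ : ∃ l : ℝ, l = ((L + Q.length : ℕ) : ℝ) := ⟨_, rfl⟩
  have hc0 : 0 ≤ c := by rw [hc]; exact Nat.cast_nonneg _
  have hl0 : 0 ≤ l := by rw [hl]; exact Nat.cast_nonneg _
  have hD00 : (0 : ℝ) ≤ D0 := Nat.cast_nonneg _
  rw [← hc] at hch
  rw [← hl]
  obtain ⟨B, hB⟩ : ∃ B : ℝ, B = ((D0 : ℝ) + 1) * (o + l * h) := ⟨_, rfl⟩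
  rw [← hB]
  have hB0 : 0 ≤ B := by rw [hB]; positivity
  -- one surgery
  have step : ∀ i < h, ((V r L m Q n o f i).card : ℝ) * (f / 2) ≤
      ((V r L m Q n o f (i + 1)).card : ℝ) * B := by
    intro i hi
    have hir : (i : ℝ) + 1 ≤ h := by exact_mod_cast hi
    set P : Finset (List Dir × ℕ) := ((V r L m Q n o f i) ×ˢ (range (n + L * i))).filter
      (fun p => p.2 ∈ FS r m p.1) with hP
    have hPm : ∀ p ∈ P, p.1 ∈ V r L m Q n o f i ∧ p.2 ∈ FS r m p.1 := by
      intro p hp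
      rw [hP, mem_filter, mem_product] at hp
      exact ⟨hp.1.1, hp.2⟩
    have h1 : ((V r L m Q n o f i).card : ℝ) * (f / 2) ≤ P.card := by
      rw [card_eq_sum_card_fiberwise (f := Prod.fst) (t := V r L m Q n o f i)
        (fun p hp => (hPm p hp).1)]
      push_cast
      rw [← nsmul_eq_mul]
      refine card_nsmul_le_sum _ _ _ fun w hw => ?_
      obtain ⟨⟨e1, e2⟩, e3, e4⟩ := mem_V.1 hw
      have h2 : (FS r m w).card ≤ (P.filter (fun p => p.1 = w)).card := by
        refine card_le_card_of_injOn (fun j => (w, j)) ?_ ?_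
        · intro j hj
          have hj' := lt_of_mem_FS (mem_coe.1 hj)
          rw [mem_coe]
          show (w, j) ∈ P.filter (fun p => p.1 = w)
          rw [mem_filter, hP, mem_filter, mem_product, mem_range]
          exact ⟨⟨⟨hw, by show j < n + L * i; omega⟩, mem_coe.1 hj⟩, rfl⟩
        · intro j _ k _ he
          exact (Prod.mk.inj he).2
      have h3 : ((FS r m w).card : ℝ) ≤ ((P.filter (fun p => p.1 = w)).card : ℝ) := by
        exact_mod_cast h2
      rw [← hc] at e4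
      have h4 : c * i ≤ c * h := mul_le_mul_of_nonneg_left (by linarith) hc0
      linarith
    have h2 : (P.card : ℝ) ≤ ((V r L m Q n o f (i + 1)).card : ℝ) * B := by
      rw [card_eq_sum_card_fiberwise (f := fun p : List Dir × ℕ => sg r fl p.1 p.2)
        (t := V r L m Q n o f (i + 1)) ?_]
      · push_cast
        rw [← nsmul_eq_mul]
        refine sum_le_card_nsmul _ _ _ fun w' hw' => ?_
        have h3 := hD0 w' (P.filter (fun p => sg r fl p.1 p.2 = w')) (by
          intro p hp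
          rw [mem_filter] at hp
          obtain ⟨e1, e2⟩ := hPm p hp.1
          exact ⟨(mem_V.1 e1).1.2, e2, hp.2⟩)
        have h4 : (((P.filter (fun p => sg r fl p.1 p.2 = w')).card : ℕ) : ℝ) ≤
            (D0 : ℝ) * occ Q w' := by exact_mod_cast h3
        have h5 := (mem_V.1 hw').2.1
        rw [← hl] at h5
        push_cast at h5
        have h6 : (occ Q w' : ℝ) ≤ o + l * h := by
          have := mul_le_mul_of_nonneg_left hir hl0
          linarith
        have h7 : (D0 : ℝ) * occ Q w' ≤ D0 * (o + l * h) := mul_le_mul_of_nonneg_left h6 hD00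
        have h8 : 0 ≤ o + l * h := by positivity
        rw [hB]
        nlinarith
      · intro p hp
        obtain ⟨e1, e2⟩ := hPm p hp
        obtain ⟨⟨g1, g2⟩, g3, g4⟩ := mem_V.1 e1
        rw [mem_coe]
        show sg r fl p.1 p.2 ∈ V r L m Q n o f (i + 1)
        obtain ⟨k1, k2, -⟩ := hgb r L m Q fl p.1 p.2 hr hF g2 e2
        have k3 := hgc r L m Q fl p.1 p.2 hr hF g2 e2
        have k4 := hgd r L m Q fl p.1 p.2 hr hQ hF g2 e2
        obtain ⟨a1, a2, a3, a4, -⟩ := hga r m p.1 p.2 hr g2 e2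
        obtain ⟨b1, -⟩ := surg hga hr hF g2 e2
        rw [mem_V]
        refine ⟨⟨?_, k1⟩, ?_, ?_⟩
        · have : L * (i + 1) = L * i + L := by ring
          omega
        · have k5 : (occ Q (sg r fl p.1 p.2) : ℝ) ≤ (occ Q p.1 : ℝ) + ((L + Q.length : ℕ) : ℝ) := by
            exact_mod_cast k4
          rw [← hl] at k5 g3 ⊢
          push_cast
          linarith
        · have k5 : ((FS r m p.1).card : ℝ) ≤ ((FS r m (sg r fl p.1 p.2)).card : ℝ) +
              ((4 * m + 1 + (4 * r + 1) ^ 2 : ℕ) : ℝ) := by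
            exact_mod_cast k3
          rw [← hc] at k5 g4 ⊢
          push_cast
          linarith
    exact h1.trans h2
  -- `k` surgeries
  have iter : ∀ k ≤ h, ((V r L m Q n o f 0).card : ℝ) * (f / 2) ^ k ≤
      ((V r L m Q n o f k).card : ℝ) * B ^ k := by
    intro k
    induction k with
    | zero =>
      intro _
      rw [pow_zero, pow_zero]
    | succ k ih =>
      intro hk
      have h1 := ih (by omega)
      have h2 := step k (by omega)
      have hf2 : 0 ≤ f / 2 := by positivity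
      calc ((V r L m Q n o f 0).card : ℝ) * (f / 2) ^ (k + 1)
          = ((V r L m Q n o f 0).card : ℝ) * (f / 2) ^ k * (f / 2) := by ring
        _ ≤ ((V r L m Q n o f k).card : ℝ) * B ^ k * (f / 2) :=
            mul_le_mul_of_nonneg_right h1 hf2
        _ = ((V r L m Q n o f k).card : ℝ) * (f / 2) * B ^ k := by ring
        _ ≤ ((V r L m Q n o f (k + 1)).card : ℝ) * B * B ^ k :=
            mul_le_mul_of_nonneg_right h2 (by positivity)
        _ = _ := by ring
  have h1 := iter h le_rfl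
  have h2 : (((SW n).filter (fun w => (occ Q w : ℝ) ≤ o ∧
      f ≤ ((FS r m w).card : ℝ))).card : ℝ) ≤ ((V r L m Q n o f 0).card : ℝ) := by
    have h3 : (SW n).filter (fun w => (occ Q w : ℝ) ≤ o ∧ f ≤ ((FS r m w).card : ℝ)) ⊆
        V r L m Q n o f 0 := by
      intro w hw
      rw [mem_filter, mem_SW] at hw
      rw [mem_V]
      refine ⟨⟨by omega, hw.1.2⟩, ?_, ?_⟩
      · have := hw.2.1
        simpa using this
      · have := hw.2.2
        simpa using this
    exact_mod_cast card_le_card h3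
  have h3 : ((V r L m Q n o f h).card : ℝ) ≤ ((SWle (n + L * h)).card : ℝ) := by
    exact_mod_cast card_le_card (filter_subset _ _)
  have hf2 : 0 ≤ f / 2 := by positivity
  calc _ ≤ ((V r L m Q n o f 0).card : ℝ) * (f / 2) ^ h :=
        mul_le_mul_of_nonneg_right h2 (by positivity)
    _ ≤ ((V r L m Q n o f h).card : ℝ) * B ^ h := h1
    _ ≤ ((SWle (n + L * h)).card : ℝ) * B ^ h := mul_le_mul_of_nonneg_right h3 (by positivity)

end Pool.Agent.Q68.PT.DBL
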