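import Pool.Agent.Q68.PT.Base

set_option autoImplicit false

/-!
# Project PT (helper91), job SGB: the sites of the word after a surgery, self-avoidance
-/

namespace Pool.Agent.Q68.PT.SGB

open Finset Pool.Agent.H976R2 Pool.Agent.H976R2.Lip Pool.Agent.Q91.PT

theorem t (hga : S_sga) : S_sgb := by
  intro r L m Q fl w j hr hF hw hj
  obtain ⟨a1, a2, a3, a4, a5, a6, a7, hx, hy, hxy⟩ := hga r m w j hr hw hj
  obtain ⟨b1, b2, b3, b4, b5⟩ := surg hga hr hF hw hj
  have hs : fv r w j ≤ w.length := by omega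
  have ht : lv r w j ≤ w.length := by omega
  have hlen := len_sg (fl := fl) hs ht
  have hright := fun i => PP_sg_right hs ht b2 i
  refine ⟨?_, hlen, fun i hi => PP_sg_left hs hi, fun i hi => ⟨PP_sg_mid hs hi, b3 i hi⟩,
    fun i _ => hright i⟩
  have hcase : ∀ p ≤ (sg r fl w j).length,
      (p < fv r w j ∧ PP (sg r fl w j) p = PP w p) ∨
      (∃ i ≤ (fw r fl w j).length, p = fv r w j + i ∧
        PP (sg r fl w j) p = PP w (fv r w j) + PP (fw r fl w j) i) ∨
      (∃ i, 1 ≤ i ∧ lv r w j + i ≤ w.length ∧ p = fv r w j + (fw r fl w j).length + i ∧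
        PP (sg r fl w j) p = PP w (lv r w j + i)) := by
    intro p hp
    rcases Nat.lt_or_ge p (fv r w j) with h1 | h1
    · exact Or.inl ⟨h1, PP_sg_left hs h1.le⟩
    · rcases Nat.lt_or_ge (fv r w j + (fw r fl w j).length) p with h2 | h2
      · refine Or.inr (Or.inr ⟨p - (fv r w j + (fw r fl w j).length), by omega, by omega,
          by omega, ?_⟩)
        have h3 := hright (p - (fv r w j + (fw r fl w j).length))
        rw [show fv r w j + (fw r fl w j).length + (p - (fv r w j + (fw r fl w j).length)) = p by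
          omega] at h3
        exact h3
      · refine Or.inr (Or.inl ⟨p - fv r w j, by omega, by omega, ?_⟩)
        have h3 := PP_sg_mid (fl := fl) hs (i := p - fv r w j) (by omega)
        rw [show fv r w j + (p - fv r w j) = p by omega] at h3
        exact h3
  -- sites outside of the box
  have hout1 : ∀ p < fv r w j, ¬ inB r (PP w j) (PP w p) := fun p hp h => by
    have := (a7 p (by omega) h).1
    omega
  have hout2 : ∀ i, 1 ≤ i → lv r w j + i ≤ w.length →
      ¬ inB r (PP w j) (PP w (lv r w j + i)) := fun i h1 h2 h => by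
    have := (a7 _ h2 h).2
    omega
  refine saw_of_inj _ fun p q hpq hq he => ?_
  rcases hcase p (by omega) with ⟨c1, c2⟩ | ⟨i, c1, c2, c3⟩ | ⟨i, c1, c2, c3, c4⟩
  · rcases hcase q hq with ⟨d1, d2⟩ | ⟨k, d1, d2, d3⟩ | ⟨k, d1, d2, d3, d4⟩
    · have := PP_inj hw (by omega) (by omega) (c2.symm.trans (he.trans d2))
      omega
    · exact hout1 p c1 (by rw [← c2, he, d3]; exact b3 k d1)
    · have := PP_inj hw (by omega) d2 (c2.symm.trans (he.trans d4))
      omega
  · rcases hcase q hq with ⟨d1, d2⟩ | ⟨k, d1, d2, d3⟩ | ⟨k, d1, d2, d3, d4⟩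
    · omega
    · have h1 : PP (fw r fl w j) i = PP (fw r fl w j) k :=
        add_left_cancel (c3.symm.trans (he.trans d3))
      have := PP_inj b4 c1 d1 h1
      omega
    · exact hout2 k d1 d2 (by rw [← d4, ← he, c3]; exact b3 i c1)
  · rcases hcase q hq with ⟨d1, d2⟩ | ⟨k, d1, d2, d3⟩ | ⟨k, d1, d2, d3, d4⟩
    · omega
    · omega
    · have := PP_inj hw c2 d2 (c4.symm.trans (he.trans d4))
      omega

end Pool.Agent.Q68.PT.SGB
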