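import Pool.Agent.Q68.PT.Base

set_option autoImplicit false

/-!
# Project PT (helper91), job SGC: a surgery destroys few surgery sites
-/

namespace Pool.Agent.Q68.PT.SGC

open Finset Pool.Agent.H976R2 Pool.Agent.H976R2.Lip Pool.Agent.Q91.PT
open scoped Classical

lemma mem_FS {r m : ℕ} {w : List Dir} {j : ℕ} : j ∈ FS r m w ↔ j < w.length ∧ m + 1 ≤ j ∧
    j + m + 1 ≤ w.length ∧ ∀ i ≤ w.length, inB r (PP w j) (PP w i) → i ≤ j + m ∧ j ≤ i + m := by
  unfold FS vs
  rw [mem_filter, mem_range]
  constructor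
  · rintro ⟨h1, h2, h3, h4⟩
    exact ⟨h1, h2, h3, fun i hi hb => h4 i (by rw [mem_filter, mem_range]; exact ⟨by omega, hb⟩)⟩
  · rintro ⟨h1, h2, h3, h4⟩
    refine ⟨h1, h2, h3, fun i hi => ?_⟩
    rw [mem_filter, mem_range] at hi
    exact h4 i (by omega) hi.2

/-- the points with distance at most `2 r` in both coordinates -/
def Near (r : ℕ) (p q : ℤ × ℤ) : Prop := |q.1 - p.1| ≤ 2 * (r : ℤ) ∧ |q.2 - p.2| ≤ 2 * (r : ℤ)

lemma near_of {r : ℕ} {p q z : ℤ × ℤ} (h1 : inB r p z) (h2 : inB r q z) : Near r p q := by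
  unfold inB at h1 h2
  unfold Near
  rw [abs_le, abs_le] at h1 h2 ⊢
  obtain ⟨⟨a1, a2⟩, ⟨a3, a4⟩⟩ := h1
  obtain ⟨⟨b1, b2⟩, ⟨b3, b4⟩⟩ := h2
  refine ⟨⟨by linarith, by linarith⟩, ⟨by linarith, by linarith⟩⟩

/-- the count, with the data of the surgery as variables -/
lemma core {r m : ℕ} {w w' : List Dir} {j s u f : ℕ} (hw : Saw w)
    (a2 : s < j) (a3 : j < u) (a4 : u + 1 ≤ w.length) (a5 : j ≤ s + m) (a6 : u ≤ j + m)
    (hlen : w'.length + u = s + f + w.length)
    (hleft : ∀ i ≤ s, PP w' i = PP w i)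
    (hright : ∀ i, PP w' (s + f + i) = PP w (u + i))
    (hcase : ∀ p ≤ w'.length, (p < s ∧ PP w' p = PP w p) ∨ inB r (PP w j) (PP w' p) ∨
      (∃ i, 1 ≤ i ∧ u + i ≤ w.length ∧ p = s + f + i ∧ PP w' p = PP w (u + i))) :
    (FS r m w).card ≤ (FS r m w').card + (4 * m + 1 + (4 * r + 1) ^ 2) := by
  -- the three parts
  set A := (FS r m w).filter (fun j' => s ≤ j' + m ∧ j' ≤ u + m) with hA
  set B := (FS r m w).filter (fun j' => Near r (PP w j) (PP w j')) with hB
  set D := (FS r m w).filter (fun j' => ¬ (s ≤ j' + m ∧ j' ≤ u + m) ∧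
    ¬ Near r (PP w j) (PP w j')) with hD
  have hcov : FS r m w ⊆ (A ∪ B) ∪ D := by
    intro j' hj'
    rw [mem_union, mem_union, hA, hB, hD, mem_filter, mem_filter, mem_filter]
    tauto
  have hcA : A.card ≤ 4 * m + 1 := by
    have h1 : A ⊆ Icc (s - m) (u + m) := by
      intro j' hj'
      rw [hA, mem_filter] at hj'
      rw [mem_Icc]
      omega
    refine (card_le_card h1).trans ?_
    rw [Nat.card_Icc]
    omega
  have hcB : B.card ≤ (4 * r + 1) ^ 2 := by
    have h1 : B.card ≤ ((Icc ((PP w j).1 - 2 * (r : ℤ)) ((PP w j).1 + 2 * (r : ℤ))) ×ˢ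
        (Icc ((PP w j).2 - 2 * (r : ℤ)) ((PP w j).2 + 2 * (r : ℤ)))).card := by
      refine card_le_card_of_injOn (fun j' => PP w j') ?_ ?_
      · intro j' hj'
        have h2 := (mem_filter.1 (mem_coe.1 hj')).2
        unfold Near at h2
        rw [abs_le, abs_le] at h2
        simp only [mem_coe, mem_product, mem_Icc]
        refine ⟨⟨by linarith [h2.1.1], by linarith [h2.1.2]⟩,
          ⟨by linarith [h2.2.1], by linarith [h2.2.2]⟩⟩
      · intro i hi k hk he
        have h2 := (mem_FS.1 (mem_filter.1 (mem_coe.1 hi)).1).1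
        have h3 := (mem_FS.1 (mem_filter.1 (mem_coe.1 hk)).1).1
        exact PP_inj hw h2.le h3.le he
    refine h1.trans (le_of_eq ?_)
    rw [card_product, Int.card_Icc, Int.card_Icc]
    rw [show (PP w j).1 + 2 * (r : ℤ) + 1 - ((PP w j).1 - 2 * (r : ℤ)) = ((4 * r + 1 : ℕ) : ℤ) by
      push_cast; ring, show (PP w j).2 + 2 * (r : ℤ) + 1 - ((PP w j).2 - 2 * (r : ℤ)) =
      ((4 * r + 1 : ℕ) : ℤ) by push_cast; ring, Int.toNat_natCast]
    ring
  have hcD : D.card ≤ (FS r m w').card := by
    refine card_le_card_of_injOn (fun j' => if j' < s then j' else s + f + (j' - u)) ?_ ?_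
    · intro j' hj'
      obtain ⟨c1, c2, c3⟩ := mem_filter.1 (mem_coe.1 hj')
      obtain ⟨d1, d2, d3, d4⟩ := mem_FS.1 c1
      rw [mem_coe]
      show (if j' < s then j' else s + f + (j' - u)) ∈ FS r m w'
      rcases Nat.lt_or_ge (j' + m) s with h1 | h1
      · rw [if_pos (by omega), mem_FS]
        refine ⟨by omega, d2, by omega, fun i hi hb => ?_⟩
        rw [hleft j' (by omega)] at hb
        rcases hcase i hi with ⟨e1, e2⟩ | e1 | ⟨k, e1, e2, e3, e4⟩
        · rw [e2] at hb
          exact d4 i (by omega) hb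
        · exact absurd (near_of e1 hb) c3
        · rw [e4] at hb
          have := d4 _ e2 hb
          omega
      · have h2 : u + m < j' := by
          by_contra h3
          exact c2 ⟨h1, by omega⟩
        rw [if_neg (by omega), mem_FS]
        have h5 : PP w' (s + f + (j' - u)) = PP w j' := by
          have := hright (j' - u)
          rw [show u + (j' - u) = j' by omega] at this
          exact this
        refine ⟨by omega, by omega, by omega, fun i hi hb => ?_⟩
        rw [h5] at hb
        rcases hcase i hi with ⟨e1, e2⟩ | e1 | ⟨k, e1, e2, e3, e4⟩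
        · rw [e2] at hb
          have := d4 i (by omega) hb
          omega
        · exact absurd (near_of e1 hb) c3
        · rw [e4] at hb
          have := d4 _ e2 hb
          omega
    · intro i hi k hk he
      obtain ⟨c1, c2, c3⟩ := mem_filter.1 (mem_coe.1 hi)
      obtain ⟨c1', c2', c3'⟩ := mem_filter.1 (mem_coe.1 hk)
      have he' : (if i < s then i else s + f + (i - u)) = (if k < s then k else s + f + (k - u)) :=
        he
      have hi' : i + m < s ∨ u + m < i := by
        by_contra h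
        exact c2 ⟨by omega, by omega⟩
      have hk' : k + m < s ∨ u + m < k := by
        by_contra h
        exact c2' ⟨by omega, by omega⟩
      split_ifs at he' <;> omega
  have h1 := (card_le_card hcov).trans (card_union_le _ _)
  have h2 := card_union_le A B
  omega

theorem t (hga : S_sga) (_ : S_sgb) : S_sgc := by
  intro r L m Q fl w j hr hF hw hj
  obtain ⟨a1, a2, a3, a4, a5, a6, a7, hx, hy, hxy⟩ := hga r m w j hr hw hj
  obtain ⟨b1, b2, b3, b4, b5⟩ := surg hga hr hF hw hj
  have hs : fv r w j ≤ w.length := by omega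
  have ht : lv r w j ≤ w.length := by omega
  have hlen := len_sg (fl := fl) hs ht
  have hright := fun i => PP_sg_right hs ht b2 i
  refine core hw a2 a3 a4 a5 a6 hlen (fun i hi => PP_sg_left hs hi) hright ?_
  intro p hp
  rcases Nat.lt_or_ge p (fv r w j) with h1 | h1
  · exact Or.inl ⟨h1, PP_sg_left hs h1.le⟩
  · rcases Nat.lt_or_ge (fv r w j + (fw r fl w j).length) p with h2 | h2
    · refine Or.inr (Or.inr ⟨p - (fv r w j + (fw r fl w j).length), by omega, by omega,
        by omega, ?_⟩)
      have h3 := hright (p - (fv r w j + (fw r fl w j).length))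
      rw [show fv r w j + (fw r fl w j).length + (p - (fv r w j + (fw r fl w j).length)) = p by
        omega] at h3
      exact h3
    · refine Or.inr (Or.inl ?_)
      have h3 := PP_sg_mid (fl := fl) hs (i := p - fv r w j) (by omega)
      rw [show fv r w j + (p - fv r w j) = p by omega] at h3
      rw [h3]
      exact b3 _ (by omega)

end Pool.Agent.Q68.PT.SGC
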