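import Pool.Agent.Q68.PT.Base

set_option autoImplicit false

/-!
# Project PT (helper91), job SGD: a surgery creates few occurrences
-/

namespace Pool.Agent.Q68.PT.SGD

open Finset Pool.Agent.H976R2 Pool.Agent.H976R2.Lip Pool.Agent.Q91.PT
open scoped Classical

lemma mem_occS {Q w : List Dir} {i : ℕ} : i ∈ occS Q w ↔ i ≤ w.length ∧
    (w.drop i).take Q.length = Q := by
  unfold occS
  rw [mem_filter, mem_range]
  constructor
  · rintro ⟨h1, h2⟩
    exact ⟨by omega, h2⟩
  · rintro ⟨h1, h2⟩
    exact ⟨by omega, h2⟩

/-- the count, for a replaced middle part -/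
lemma core {Q w f : List Dir} {s u : ℕ} (hQ : Q ≠ []) (hsu : s ≤ u) (hu : u ≤ w.length) :
    occ Q (w.take s ++ f ++ w.drop u) ≤ occ Q w + (f.length + Q.length) := by
  have hQl : 0 < Q.length := List.length_pos_of_ne_nil hQ
  obtain ⟨w', hw'⟩ : ∃ w', w' = w.take s ++ f ++ w.drop u := ⟨_, rfl⟩
  have hls : (w.take s).length = s := by rw [List.length_take, min_eq_left (by omega)]
  have hlsf : (w.take s ++ f).length = s + f.length := by rw [List.length_append, hls]
  have hlen : w'.length + u = s + f.length + w.length := by
    rw [hw', List.length_append, hlsf, List.length_drop]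
    omega
  rw [← hw']
  -- occurrences in the first part
  have h1 : ∀ i, i + Q.length ≤ s → (w'.drop i).take Q.length = (w.drop i).take Q.length := by
    intro i hi
    rw [hw', List.append_assoc, List.drop_append_of_le_length (by omega),
      List.take_append_of_le_length (by rw [List.length_drop, hls]; omega), List.drop_take,
      List.take_take, min_eq_left (by omega)]
  -- occurrences in the last part
  have h2 : ∀ i, s + f.length ≤ i → w'.drop i = w.drop (i - (s + f.length) + u) := by
    intro i hi
    obtain ⟨k, rfl⟩ := Nat.exists_eq_add_of_le hi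
    have h3 := List.drop_length_add_append (l₁ := w.take s ++ f) (l₂ := w.drop u) (i := k)
    rw [hlsf] at h3
    rw [hw', h3, List.drop_drop]
    congr 1
    omega
  set A := (occS Q w').filter (fun i => s < i + Q.length ∧ i < s + f.length) with hA
  set B := (occS Q w').filter (fun i => ¬ (s < i + Q.length ∧ i < s + f.length)) with hB
  have hsplit : (occS Q w').card = A.card + B.card := by
    rw [hA, hB, card_filter_add_card_filter_not]
  have hcA : A.card ≤ f.length + Q.length := by
    have h3 : A ⊆ Ioo (s - Q.length) (s + f.length) ∪ {0} := by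
      intro i hi
      rw [hA, mem_filter] at hi
      rw [mem_union, mem_Ioo, mem_singleton]
      omega
    have h4 : A ⊆ Ico (s + 1 - Q.length) (s + f.length) := by
      intro i hi
      rw [hA, mem_filter] at hi
      rw [mem_Ico]
      omega
    refine (card_le_card h4).trans ?_
    rw [Nat.card_Ico]
    omega
  have hcB : B.card ≤ (occS Q w).card := by
    refine card_le_card_of_injOn
      (fun i => if i < s + f.length then i else i - (s + f.length) + u) ?_ ?_
    · intro i hi
      obtain ⟨c1, c2⟩ := mem_filter.1 (mem_coe.1 hi)
      obtain ⟨d1, d2⟩ := mem_occS.1 c1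
      rw [mem_coe]
      show (if i < s + f.length then i else i - (s + f.length) + u) ∈ occS Q w
      split_ifs with h
      · rw [mem_occS]
        have h3 : i + Q.length ≤ s := by
          by_contra h4
          exact c2 ⟨by omega, h⟩
        exact ⟨by omega, by rw [← h1 i h3]; exact d2⟩
      · rw [mem_occS]
        exact ⟨by omega, by rw [← h2 i (by omega)]; exact d2⟩
    · intro i hi k hk he
      obtain ⟨c1, c2⟩ := mem_filter.1 (mem_coe.1 hi)
      obtain ⟨c1', c2'⟩ := mem_filter.1 (mem_coe.1 hk)
      have he' : (if i < s + f.length then i else i - (s + f.length) + u) =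
          (if k < s + f.length then k else k - (s + f.length) + u) := he
      split_ifs at he' with h3 h4 h4
      · exact he'
      · exfalso
        apply c2
        exact ⟨by omega, h3⟩
      · exfalso
        apply c2'
        exact ⟨by omega, h4⟩
      · omega
  unfold occ
  omega

theorem t (hga : S_sga) (_ : S_sgb) : S_sgd := by
  intro r L m Q fl w j hr hQ hF hw hj
  obtain ⟨a1, a2, a3, a4, a5, a6, a7, hx, hy, hxy⟩ := hga r m w j hr hw hj
  obtain ⟨b1, b2, b3, b4, b5⟩ := surg hga hr hF hw hj
  have h1 := core (f := fw r fl w j) (w := w) (s := fv r w j) (u := lv r w j) hQ (by omega)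
    (by omega)
  unfold sg
  omega

end Pool.Agent.Q68.PT.SGD
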